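import Pool.Agent.MP_26cd3b_lc.H27.CellDefs

set_option autoImplicit false

namespace Pool.Agent.MP_26cd3b_lc.H84

open Submodule H27

variable {E : Type} [AddCommGroup E] [Module ℝ E] {ι : Type} {s A : Finset ι} {y : ι → E}

theorem exists_fn [FiniteDimensional ℝ E] {v0 v1 v2 v3 v4 : E}
    (hsp : ⊤ ≤ span ℝ ({v0, v1, v2, v3, v4} ∪ y '' A))
    (hr : Module.finrank ℝ E = A.card + 5) (c0 c1 c2 c3 c4 d : ℝ) :
    ∃ φ : E →ₗ[ℝ] ℝ, φ v0 = c0 ∧ φ v1 = c1 ∧ φ v2 = c2 ∧ φ v3 = c3 ∧ φ v4 = c4 ∧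
      ∀ x ∈ A, φ (y x) = d := by
  classical
  let v : Fin 5 ⊕ A → E := Sum.elim ![v0, v1, v2, v3, v4] fun x => y x
  have h1 : ⊤ ≤ span ℝ (Set.range v) := by
    refine hsp.trans (span_mono ?_)
    rintro _ ((rfl | rfl | rfl | rfl | rfl) | ⟨x, hx, rfl⟩)
    exacts [⟨.inl 0, rfl⟩, ⟨.inl 1, rfl⟩, ⟨.inl 2, rfl⟩, ⟨.inl 3, rfl⟩, ⟨.inl 4, rfl⟩,
      ⟨.inr ⟨x, hx⟩, rfl⟩]
  let b := basisOfTopLeSpanOfCardEqFinrank v h1 (by simp [hr, add_comm])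
  have hb : ∀ i, b i = v i := fun i => by simp [b]
  let φ := b.constr ℝ (Sum.elim ![c0, c1, c2, c3, c4] fun _ => d)
  have hφ : ∀ i, φ (v i) = Sum.elim ![c0, c1, c2, c3, c4] (fun _ => d) i := fun i => by
    rw [← hb]; exact b.constr_basis ℝ _ i
  exact ⟨φ, hφ (.inl 0), hφ (.inl 1), hφ (.inl 2), hφ (.inl 3), hφ (.inl 4),
    fun x hx => hφ (.inr ⟨x, hx⟩)⟩

/-- the cone of the universal labels -/
abbrev K (A : Finset ι) (y : ι → E) (w : E) : Prop := Cn ⊥ (y '' A) w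

theorem K.nn {w : E} (h : K A y w) {φ : E →ₗ[ℝ] ℝ} {d : ℝ} (hd : 0 ≤ d)
    (hφ : ∀ x ∈ A, φ (y x) = d) : 0 ≤ φ w :=
  h.nonneg (by simp) (by rintro _ ⟨x, hx, rfl⟩; rw [hφ x hx]; exact hd)

theorem K.zero {w : E} (h : K A y w) {φ : E →ₗ[ℝ] ℝ} (hφ : ∀ x ∈ A, φ (y x) = 0) : φ w = 0 :=
  h.mem_sup (W := LinearMap.ker φ) bot_le (by rintro _ ⟨x, hx, rfl⟩; exact hφ x hx)

theorem K.eq_zero {w : E} (h : K A y w) {φ : E →ₗ[ℝ] ℝ} (hφ : ∀ x ∈ A, φ (y x) = 1)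
    (h0 : φ w = 0) : w = 0 :=
  h.eq_base (φ := φ) (by simp) (by rintro _ ⟨x, hx, rfl⟩; rw [hφ x hx]; exact one_pos) h0

theorem expand {U : Submodule ℝ E} {T : Set ι} {v : E} (h : Cn U (y '' T) v) {x1 x2 x3 x4 x5 : ι}
    (hT : ∀ x ∈ T, x = x1 ∨ x = x2 ∨ x = x3 ∨ x = x4 ∨ x = x5 ∨ x ∈ A) :
    ∃ u ∈ U, ∃ c1 c2 c3 c4 c5 : ℝ, ∃ w, 0 ≤ c1 ∧ 0 ≤ c2 ∧ 0 ≤ c3 ∧ 0 ≤ c4 ∧ 0 ≤ c5 ∧ K A y w ∧
      v = u + c1 • y x1 + c2 • y x2 + c3 • y x3 + c4 • y x4 + c5 • y x5 + w := by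
  have h' : Cn U (insert (y x1) (insert (y x2) (insert (y x3) (insert (y x4)
      (insert (y x5) (y '' A)))))) v := by
    refine h.mono ?_
    rintro _ ⟨x, hx, rfl⟩
    rcases hT x hx with rfl | rfl | rfl | rfl | rfl | h
    all_goals simp only [Set.mem_insert_iff, true_or, or_true]
    exact Or.inr (Or.inr (Or.inr (Or.inr (Or.inr ⟨x, h, rfl⟩))))
  obtain ⟨c1, g1, _, h1, rfl⟩ := h'.of_insert
  obtain ⟨c2, g2, _, h2, rfl⟩ := h1.of_insert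
  obtain ⟨c3, g3, _, h3, rfl⟩ := h2.of_insert
  obtain ⟨c4, g4, _, h4, rfl⟩ := h3.of_insert
  obtain ⟨c5, g5, _, h5, rfl⟩ := h4.of_insert
  obtain ⟨u, hu, w, hw, rfl⟩ := h5.split
  exact ⟨u, hu, c1, c2, c3, c4, c5, w, g1, g2, g3, g4, g5, hw, by abel⟩

/-- expansion in the tangent cone at a vertex with five neighbours -/
def T5 (s A : Finset ι) (y : ι → E) (p x1 x2 x3 x4 x5 : ι) : Prop :=
  ∀ v ∈ s, ∃ t c1 c2 c3 c4 c5 : ℝ, ∃ w, 0 ≤ c1 ∧ 0 ≤ c2 ∧ 0 ≤ c3 ∧ 0 ≤ c4 ∧ 0 ≤ c5 ∧ K A y w ∧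
    y v = t • y p + c1 • y x1 + c2 • y x2 + c3 • y x3 + c4 • y x4 + c5 • y x5 + w

/-- expansion in the tangent cone at an edge with three neighbours -/
def T3 (s A : Finset ι) (y : ι → E) (o p x1 x2 x3 : ι) : Prop :=
  ∀ v ∈ s, ∃ t t' c1 c2 c3 : ℝ, ∃ w, 0 ≤ c1 ∧ 0 ≤ c2 ∧ 0 ≤ c3 ∧ K A y w ∧
    y v = t • y o + t' • y p + c1 • y x1 + c2 • y x2 + c3 • y x3 + w

/-- valid functionals with prescribed values around a simple vertex -/
def B1 (s A : Finset ι) (y : ι → E) (a x1 x2 x3 x4 : ι) : Prop :=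
  ∀ c1 c2 c3 c4 d : ℝ, 0 ≤ c1 → 0 ≤ c2 → 0 ≤ c3 → 0 ≤ c4 → 0 ≤ d → ∃ φ : E →ₗ[ℝ] ℝ,
    Valid s y φ ∧ φ (y a) = 0 ∧ φ (y x1) = c1 ∧ φ (y x2) = c2 ∧ φ (y x3) = c3 ∧ φ (y x4) = c4 ∧
      ∀ x ∈ A, φ (y x) = d

theorem B1.swap {a x1 x2 x3 x4 : ι} (h : B1 s A y a x1 x2 x3 x4) : B1 s A y a x1 x2 x4 x3 :=
  fun c1 c2 c3 c4 d g1 g2 g3 g4 g5 =>
    let ⟨φ, k0, k1, k2, k3, k4, k5, k6⟩ := h c1 c2 c4 c3 d g1 g2 g4 g3 g5
    ⟨φ, k0, k1, k2, k3, k5, k4, k6⟩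

variable [FiniteDimensional ℝ E]

theorem t5_of (hv : Vx s y) {p x1 x2 x3 x4 x5 : ι} (hp : p ∈ s)
    (hT : ∀ x, Ed s y p x → x = x1 ∨ x = x2 ∨ x = x3 ∨ x = x4 ∨ x = x5 ∨ x ∈ A) :
    T5 s A y p x1 x2 x3 x4 x5 := fun v hvs => by
  obtain ⟨u, hu, c1, c2, c3, c4, c5, w, g1, g2, g3, g4, g5, g6, e⟩ :=
    expand (hv.tangent hp v hvs) hT
  obtain ⟨t, rfl⟩ := mem_span_singleton.1 hu
  exact ⟨t, c1, c2, c3, c4, c5, w, g1, g2, g3, g4, g5, g6, e⟩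

theorem t3_of (hv : Vx s y) {o p r x1 x2 x3 : ι} (hp : Ed s y o p)
    (ho : ∀ x ∈ s, x ≠ o → Ed s y o x) (hF : ¬ Face s y {o, p, r})
    (hT : ∀ x, Ed s y p x → x = o ∨ x = r ∨ x = x1 ∨ x = x2 ∨ x = x3 ∨ x ∈ A) :
    T3 s A y o p x1 x2 x3 := fun v hvs => by
  obtain ⟨u, hu, c1, c2, c3, c4, c5, w, g1, g2, g3, g4, g5, g6, e⟩ :=
    expand (A := A) (x1 := x1) (x2 := x2) (x3 := x3) (x4 := x3) (x5 := x3)
      (hp.tangent ho v hvs) (by
      rintro x ⟨k1, k2, k3, k4⟩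
      rcases hT x (hv.drop hp.1 hp.2.1 k1 k3.symm hp.2.2.1 k2.symm k4) with
        h | rfl | h | h | h | h
      · exact absurd h k2
      · exact absurd k4 hF
      all_goals simp [h])
  obtain ⟨t, t', rfl⟩ := mem_span_pair.1 hu
  exact ⟨t, t', c1, c2, c3 + c4 + c5, w, g1, g2, by positivity, g6, by rw [e]; module⟩

theorem b1_of (hv : Vx s y) (hsp : span ℝ (y '' s) = ⊤) (hr : Module.finrank ℝ E = A.card + 5)
    {a x1 x2 x3 x4 : ι} (ha : a ∈ s)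
    (hT : ∀ x, Ed s y a x → x = x1 ∨ x = x2 ∨ x = x3 ∨ x = x4 ∨ x ∈ A) :
    B1 s A y a x1 x2 x3 x4 := fun c1 c2 c3 c4 d g1 g2 g3 g4 g5 => by
  have h : ⊤ ≤ span ℝ ({y a, y x1, y x2, y x3, y x4} ∪ y '' A) := by
    rw [← hsp, span_le]
    rintro _ ⟨v, hvs, rfl⟩
    refine (hv.tangent ha v hvs).mem_sup (span_mono (by simp)) ?_
    rintro _ ⟨x, hx, rfl⟩
    refine subset_span ?_
    rcases hT x hx with rfl | rfl | rfl | rfl | h
    · simp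
    · simp
    · simp
    · simp
    · exact Or.inr ⟨x, h, rfl⟩
  obtain ⟨φ, k0, k1, k2, k3, k4, k5⟩ := exists_fn h hr 0 c1 c2 c3 c4 d
  refine ⟨φ, hv.valid ha k0 fun x hx => ?_, k0, k1, k2, k3, k4, k5⟩
  rcases hT x hx with rfl | rfl | rfl | rfl | h
  · rwa [k1]
  · rwa [k2]
  · rwa [k3]
  · rwa [k4]
  · rwa [k5 x h]

omit [FiniteDimensional ℝ E] in
theorem T3.top {o p x1 x2 x3 : ι} (h : T3 s A y o p x1 x2 x3) (hsp : span ℝ (y '' s) = ⊤) :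
    ⊤ ≤ span ℝ ({y o, y p, y x1, y x2, y x3} ∪ y '' A) := by
  rw [← hsp, span_le]
  rintro _ ⟨v, hvs, rfl⟩
  obtain ⟨t, t', c1, c2, c3, w, -, -, -, hw, e⟩ := h v hvs
  rw [e]
  refine add_mem (add_mem (add_mem (add_mem (add_mem ?_ ?_) ?_) ?_) ?_)
    (hw.mem_sup bot_le fun z hz => subset_span (Or.inr hz))
  all_goals exact smul_mem _ _ (subset_span (by simp))

omit [FiniteDimensional ℝ E] in
theorem lemmaL (hv : Vx s y) {O h g P Q a S : ι} (mO : O ∈ s) (mh : h ∈ s) (mg : g ∈ s)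
    (mP : P ∈ s) (mQ : Q ∈ s) (ma : a ∈ s) (mS : S ∈ s) (n1 : O ≠ h) (n2 : a ≠ O) (n3 : a ≠ h)
    (n4 : a ≠ P) (n5 : g ≠ a) (n6 : g ≠ P) (n7 : g ≠ Q) (n8 : Q ≠ P) (n9 : Q ≠ a)
    (hT : T3 s A y O P Q g h) (hB : B1 s A y a O g Q S) (hQ : T5 s A y Q O h P a S) :
    ∃ q c2 c3 : ℝ, q ≠ 0 ∧ 0 < c2 ∧ 0 < c3 ∧ y g = q • y Q + c2 • y a + c3 • y P := by
  obtain ⟨σ, v1, s0, s1, s2, s3, s4, s5⟩ := hB 0 0 0 1 0 le_rfl le_rfl le_rfl zero_le_one le_rfl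
  have key : 0 < σ (y h) := by
    refine lt_of_le_of_ne (v1 h mh) fun h0 => ?_
    obtain ⟨t, t', c1, c2, c3, w, -, -, -, hw, e⟩ := hT S mS
    have e1 := congrArg σ e
    simp only [map_add, map_smul, smul_eq_mul, s1, s2, s3, s4, ← h0, hw.zero s5] at e1
    have e2 : σ (y P) ≠ 0 := fun h => by rw [h] at e1; linarith
    obtain ⟨t, t', c1, c2, c3, w, g1, g2, g3, hw, e⟩ := hT a ma
    have e3 := congrArg σ e
    simp only [map_add, map_smul, smul_eq_mul, s0, s1, s2, s3, ← h0, hw.zero s5] at e3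
    have e4 : t' = 0 := (mul_eq_zero.1 (show t' * σ (y P) = 0 by linarith)).resolve_right e2
    obtain ⟨μ, v2, m0, m1, m2, m3, -, m5⟩ :=
      hB 0 1 1 0 1 le_rfl zero_le_one zero_le_one le_rfl zero_le_one
    have e5 := congrArg μ e
    simp only [map_add, map_smul, smul_eq_mul, m0, m1, m2, m3, e4] at e5
    have e6 := mul_nonneg g3 (v2 h mh)
    have e7 := hw.nn zero_le_one m5
    have e8 : w = 0 := hw.eq_zero m5 (by linarith)
    have e9 : c1 = 0 := by linarith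
    have e10 : c2 = 0 := by linarith
    refine hv.tri mO mh ma n1 n2 n3 (mem_span_pair.2 ⟨t, c3, ?_⟩)
    rw [e, e4, e8, e9, e10]; simp
  obtain ⟨ψ, v2, m0, m1, m2, m3, m4, m5⟩ :=
    hB 1 0 0 0 1 zero_le_one le_rfl le_rfl le_rfl zero_le_one
  obtain ⟨q, c0, c1, c3, c2, c4, w, g0, g1, g3, g2, g4, hw, e⟩ := hQ g mg
  have e1 := congrArg σ e
  have e2 := congrArg ψ e
  simp only [map_add, map_smul, smul_eq_mul, s0, s1, s2, s3, s4, hw.zero s5] at e1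
  simp only [map_add, map_smul, smul_eq_mul, m0, m1, m2, m3, m4] at e2
  have e3 := mul_nonneg g1 key.le
  have e4 := mul_nonneg g3 (v1 P mP)
  have e5 := mul_nonneg g1 (v2 h mh)
  have e6 := mul_nonneg g3 (v2 P mP)
  have e7 := hw.nn zero_le_one m5
  have e8 : w = 0 := hw.eq_zero m5 (by linarith)
  have e9 : c0 = 0 := by linarith
  have e10 : c4 = 0 := by linarith
  have e11 : c1 = 0 :=
    (mul_eq_zero.1 (show c1 * σ (y h) = 0 by linarith)).resolve_right key.ne'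
  have e12 : y g = q • y Q + c2 • y a + c3 • y P := by
    rw [e, e8, e9, e10, e11]; module
  refine ⟨q, c2, c3, fun h0 => ?_, lt_of_le_of_ne g2 fun h0 => ?_,
    lt_of_le_of_ne g3 fun h0 => ?_, e12⟩
  · exact hv.tri ma mP mg n4 n5 n6 (mem_span_pair.2 ⟨c2, c3, by rw [e12, h0]; simp⟩)
  · exact hv.tri mQ mP mg n8 n7 n6 (mem_span_pair.2 ⟨q, c3, by rw [e12, ← h0]; simp⟩)
  · exact hv.tri mQ ma mg n9 n7 n5 (mem_span_pair.2 ⟨q, c2, by rw [e12, ← h0]; simp⟩)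

theorem core (hv : Vx s y) (hsp : span ℝ (y '' s) = ⊤) (hr : Module.finrank ℝ E = A.card + 5)
    {O h g P Q a S R b : ι} (mO : O ∈ s) (mh : h ∈ s) (mg : g ∈ s)
    (mP : P ∈ s) (mQ : Q ∈ s) (mS : S ∈ s) (mR : R ∈ s) (mb : b ∈ s)
    (hPR : Ed s y P R) (hhQ : Ed s y h Q) (n1 : O ≠ P) (n2 : O ≠ R) (n3 : Q ≠ P) (n4 : Q ≠ R)
    (n5 : R ≠ h) (n6 : O ≠ h) (n7 : O ≠ Q) (n8 : P ≠ h) (n9 : g ≠ h) (n10 : g ≠ Q)
    (hT : T3 s A y O P Q g h) (hB : B1 s A y a O g Q S) (hQ : T5 s A y Q O h P a S)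
    (hh : T5 s A y h O g P Q b)
    (hP : ∀ x, Ed s y P x → x = O ∨ x = R ∨ x = Q ∨ x = g ∨ x = h ∨ x ∈ A)
    {q c2 c3 q' c2' c3' : ℝ} (hc2 : 0 < c2) (hc3 : 0 < c3) (hc3' : 0 < c3')
    (eA : y g = q • y Q + c2 • y a + c3 • y P) (eB : y g = q' • y S + c2' • y a + c3' • y R)
    {X Z : E →ₗ[ℝ] ℝ} (XO : X (y O) = 0) (Xh : X (y h) = 0) (Xg : X (y g) = 0)
    (XA : ∀ x ∈ A, X (y x) = 0) (ZO : Z (y O) = 0) (Zh : Z (y h) = 0) (Zg : Z (y g) = 0)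
    (ZA : ∀ x ∈ A, Z (y x) = 0) (h04 : X (y P) * Z (y R) - X (y R) * Z (y P) ≠ 0)
    (h05 : X (y P) * Z (y b) - X (y b) * Z (y P) ≠ 0) :
    ∃ t c5 : ℝ, c5 ≠ 0 ∧ c2 * q' * t = -(q * c2' * c5) ∧ X (y b) = t * X (y Q) + c5 * X (y S) ∧
      Z (y b) = t * Z (y Q) + c5 * Z (y S) := by
  obtain ⟨x', z, w, u, v, W, g1, g2, g3, hW, eR⟩ := hT R mR
  obtain ⟨x, rfl⟩ : ∃ x, x' = -x := ⟨-x', by ring⟩
  have hW0 : W = 0 := by
    obtain ⟨α, v1, s0, s1, s2, s3, s4, s5⟩ := hB 0 0 0 0 1 le_rfl le_rfl le_rfl le_rfl zero_le_one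
    have e1 := congrArg α eA
    have e2 := congrArg α eB
    have e3 := congrArg α eR
    simp only [map_add, map_smul, smul_eq_mul, s0, s1, s2, s3, s4] at e1 e2 e3
    have e4 : α (y P) = 0 :=
      (mul_eq_zero.1 (show c3 * α (y P) = 0 by linarith)).resolve_left hc3.ne'
    have e5 : α (y R) = 0 :=
      (mul_eq_zero.1 (show c3' * α (y R) = 0 by linarith)).resolve_left hc3'.ne'
    have e6 := mul_nonneg g3 (v1 h mh)
    have e7 := hW.nn zero_le_one s5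
    rw [e4, e5] at e3
    exact hW.eq_zero s5 (by linarith)
  rw [hW0, add_zero] at eR
  have hw : 0 < w := by
    refine lt_of_le_of_ne g1 fun h0 => h04 ?_
    rw [eR]
    simp only [map_add, map_smul, smul_eq_mul, XO, Xh, Xg, ZO, Zh, Zg, ← h0]
    ring
  have hx : 0 < x := by
    obtain ⟨θ, v1, s0, s1, s2⟩ := hPR.fn
    have e1 := congrArg θ eR
    simp only [map_add, map_smul, smul_eq_mul, s0, s1] at e1
    have e2 := mul_pos hw (s2 Q mQ n3 n4)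
    have e3 := mul_nonneg g2 (v1 g mg)
    have e4 := mul_nonneg g3 (v1 h mh)
    exact (mul_pos_iff_of_pos_right (s2 O mO n1 n2)).1 (by linarith)
  have hz : z < 0 := by
    obtain ⟨α, v1, s0, s1, s2, s3, s4, -⟩ := hB 0 0 1 0 0 le_rfl le_rfl zero_le_one le_rfl le_rfl
    have e2 := congrArg α eB
    have e3 := congrArg α eR
    simp only [map_add, map_smul, smul_eq_mul, s0, s1, s2, s3, s4] at e2 e3
    have e5 : α (y R) = 0 :=
      (mul_eq_zero.1 (show c3' * α (y R) = 0 by linarith)).resolve_left hc3'.ne'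
    have e6 := mul_nonneg g3 (v1 h mh)
    by_contra hz
    have := mul_nonneg (not_lt.1 hz) (v1 P mP)
    linarith
  have hu : 0 < u := by
    obtain ⟨θ, v1, s0, s1, s2⟩ := hhQ.fn
    have e1 := congrArg θ eR
    simp only [map_add, map_smul, smul_eq_mul, s0, s1] at e1
    have e2 := s2 R mR n5 n4.symm
    have e3 := mul_pos hx (s2 O mO n6 n7)
    have e4 := mul_pos (neg_pos.2 hz) (s2 P mP n8 n3.symm)
    exact (mul_pos_iff_of_pos_right (s2 g mg n9 n10)).1 (by linarith)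
  obtain ⟨χ, a0, a1, a2, a3, a4, a5⟩ := exists_fn (hT.top hsp) hr w 0 x 0 0 0
  obtain ⟨ρ, r0, r1, r2, r3, r4, r5⟩ := exists_fn (hT.top hsp) hr u 0 0 x 0 0
  obtain ⟨ω, o0, o1, o2, o3, o4, o5⟩ := exists_fn (hT.top hsp) hr 1 0 0 0 0 0
  have a6 : χ (y R) = 0 := by
    rw [eR]; simp only [map_add, map_smul, smul_eq_mul, a0, a1, a2, a3, a4]; ring
  have r6 : ρ (y R) = 0 := by
    rw [eR]; simp only [map_add, map_smul, smul_eq_mul, r0, r1, r2, r3, r4]; ring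
  have o6 : ω (y R) = -x := by
    rw [eR]; simp only [map_add, map_smul, smul_eq_mul, o0, o1, o2, o3, o4]; ring
  have vχ : Valid s y χ := hv.valid mP a1 fun x hx' => by
    rcases hP x hx' with rfl | rfl | rfl | rfl | rfl | h
    exacts [a0 ▸ hw.le, a6.ge, a2 ▸ hx.le, a3.ge, a4.ge, (a5 x h).ge]
  have vρ : Valid s y ρ := hv.valid mP r1 fun x hx' => by
    rcases hP x hx' with rfl | rfl | rfl | rfl | rfl | h
    exacts [r0 ▸ hu.le, r6.ge, r2.ge, r3 ▸ hx.le, r4.ge, (r5 x h).ge]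
  have aA := congrArg χ eA
  have aB := congrArg χ eB
  have rA := congrArg ρ eA
  simp only [map_add, map_smul, smul_eq_mul, a1, a2, a3, a6] at aA aB
  simp only [map_add, map_smul, smul_eq_mul, r1, r2, r3] at rA
  have r7 : 0 < ρ (y a) := (mul_pos_iff_of_pos_left hc2).1 (by linarith)
  have hb0 : χ (y b) = 0 ∧ ρ (y b) = 0 := by
    obtain ⟨t, e0, e1, e2, e3, e4, W, k0, k1, k2, k3, k4, hW, e⟩ := hh R mR
    have f1 := congrArg ω e
    have f2 := congrArg ρ e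
    have f3 := congrArg χ e
    simp only [map_add, map_smul, smul_eq_mul, o0, o1, o2, o3, o4, o6, hW.zero o5] at f1
    simp only [map_add, map_smul, smul_eq_mul, r0, r1, r2, r3, r4, r6, hW.zero r5] at f2
    simp only [map_add, map_smul, smul_eq_mul, a0, a1, a2, a3, a4, a6, hW.zero a5] at f3
    have f4 : e4 ≠ 0 := fun h0 => by rw [h0] at f1; linarith
    have := mul_nonneg k0 hu.le
    have := mul_nonneg k1 hx.le
    have := mul_nonneg k0 hw.le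
    have := mul_nonneg k3 hx.le
    have := mul_nonneg k4 (vχ b mb)
    have := mul_nonneg k4 (vρ b mb)
    exact ⟨(mul_eq_zero.1 (show e4 * χ (y b) = 0 by linarith)).resolve_left f4,
      (mul_eq_zero.1 (show e4 * ρ (y b) = 0 by linarith)).resolve_left f4⟩
  obtain ⟨a7, r8⟩ := hb0
  obtain ⟨t, b0, b4, b3, b1, c5, W, k0, k4, k3, k1, k5, hW, e⟩ := hQ b mb
  have f1 := congrArg ρ e
  have f2 := congrArg χ e
  have f3 := congrArg X e
  have f4 := congrArg Z e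
  simp only [map_add, map_smul, smul_eq_mul, r0, r1, r2, r4, r8, hW.zero r5] at f1
  have j1 := mul_nonneg k0 hu.le
  have j2 := mul_nonneg k1 r7.le
  have j3 := mul_nonneg k5 (vρ S mS)
  have j4 : b0 = 0 := (mul_eq_zero.1 (show b0 * u = 0 by linarith)).resolve_right hu.ne'
  have j5 : b1 = 0 := (mul_eq_zero.1 (show b1 * ρ (y a) = 0 by linarith)).resolve_right r7.ne'
  simp only [map_add, map_smul, smul_eq_mul, a0, a1, a2, a4, a7, hW.zero a5, j4, j5] at f2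
  simp only [map_add, map_smul, smul_eq_mul, XO, Xh, hW.zero XA, j5] at f3
  simp only [map_add, map_smul, smul_eq_mul, ZO, Zh, hW.zero ZA, j5] at f4
  have j6 : c5 ≠ 0 := fun h0 => by
    have : t = 0 := (mul_eq_zero.1 (show t * x = 0 by rw [h0] at f2; linarith)).resolve_right hx.ne'
    refine h05 ?_
    rw [f3, f4, h0, this]; ring
  have r9 : ρ (y S) = 0 := (mul_eq_zero.1 (show c5 * ρ (y S) = 0 by linarith)).resolve_left j6
  obtain ⟨t', e0, e1, d1, d2, d3, W', l0, l1, l2, -, -, hW', e'⟩ := hh S mS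
  have p1 := congrArg ρ e'
  have p2 := congrArg χ e'
  have p3 := congrArg X e'
  have p4 := congrArg Z e'
  simp only [map_add, map_smul, smul_eq_mul, r0, r1, r2, r3, r4, r8, r9, hW'.zero r5] at p1
  have i1 := mul_nonneg l0 hu.le
  have i2 := mul_nonneg l1 hx.le
  have i3 : e0 = 0 := (mul_eq_zero.1 (show e0 * u = 0 by linarith)).resolve_right hu.ne'
  simp only [map_add, map_smul, smul_eq_mul, a0, a1, a2, a3, a4, a7, hW'.zero a5, i3] at p2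
  simp only [map_add, map_smul, smul_eq_mul, XO, Xh, Xg, hW'.zero XA] at p3
  simp only [map_add, map_smul, smul_eq_mul, ZO, Zh, Zg, hW'.zero ZA] at p4
  have i4 : t + c5 * d2 = 0 :=
    (mul_eq_zero.1 (show (t + c5 * d2) * x = 0 by linear_combination -f2 - c5 * p2)).resolve_right
      hx.ne'
  have i5 : b3 + c5 * d1 = 0 := by
    refine (mul_eq_zero.1 ?_).resolve_right h05
    linear_combination (-Z (y b)) * (f3 + c5 * p3) + X (y b) * (f4 + c5 * p4)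
      - (Z (y b) * X (y Q) - X (y b) * Z (y Q)) * i4
  have i6 : b3 = 0 := by
    have := mul_nonneg k5 l2
    linarith
  refine ⟨t, c5, j6, mul_right_cancel₀ hx.ne' ?_, by rw [f3, i6]; ring, by rw [f4, i6]; ring⟩
  linear_combination (-c2 * q') * f2 + c2 * c5 * aB - c5 * c2' * aA

/-- TASK GS: labels O=(0,0), h=(0,1), g=(0,2), P,Q,a,S,R,b=(2,0..5); A = extra universal labels -/
theorem gadget_sound {s A : Finset Lb} {y : Lb → E} (hs : ∀ x, x ∈ s ↔ x ∈ lab0 6 ∨ x ∈ A)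
    (hA : ∀ x ∈ A, x.1 = 1) (hv : Vx s y) (hsp : span ℝ (y '' s) = ⊤)
    (hr : Module.finrank ℝ E = A.card + 5)
    (h0 : ∀ a ∈ lab0 6, ∀ b ∈ lab0 6, Ed s y a b ↔ adj0 6 esG chG a b)
    (h1 : ∀ a ∈ A, ∀ b ∈ s, b ≠ a → Ed s y a b)
    (hF : ¬ Face s y {(0, 0), (2, 0), (2, 4)}) {X Z : E →ₗ[ℝ] ℝ}
    (hX : ∀ a ∈ s, a.1 ≠ 2 → X (y a) = 0 ∧ Z (y a) = 0) {d : ℕ → ℕ → ℝ}
    (hd : ∀ i j, d i j = X (y (2, i)) * Z (y (2, j)) - X (y (2, j)) * Z (y (2, i)))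
    (h04 : d 0 4 ≠ 0) (h05 : d 0 5 ≠ 0) : d 0 1 * d 2 4 * d 3 5 = d 0 2 * d 3 4 * d 1 5 := by
  have m0 : ∀ j < 3, ((0, j) : Lb) ∈ s := fun j hj => (hs _).2 (Or.inl (mem_lab0.2 (by simp [hj])))
  have m2 : ∀ j < 6, ((2, j) : Lb) ∈ s := fun j hj => (hs _).2 (Or.inl (mem_lab0.2 (by simp [hj])))
  have nb : ∀ p ∈ lab0 6, ∀ x, Ed s y p x → adj0 6 esG chG p x ∨ x ∈ A := fun p hp x hx =>
    ((hs x).1 hx.2.1).imp_left fun h => (h0 p hp x h).1 hx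
  have ed : ∀ p x, adj0 6 esG chG p x → Ed s y p x := fun p x h => (h0 p h.1 x h.2.1).2 h
  have nbr : ∀ (p x1 x2 x3 x4 x5 : Lb), p ∈ lab0 6 →
      (∀ i j, adj0 6 esG chG p (i, j) →
        (i, j) = x1 ∨ (i, j) = x2 ∨ (i, j) = x3 ∨ (i, j) = x4 ∨ (i, j) = x5) →
      ∀ x, Ed s y p x → x = x1 ∨ x = x2 ∨ x = x3 ∨ x = x4 ∨ x = x5 ∨ x ∈ A := by
    intro p x1 x2 x3 x4 x5 hp h x hx
    have := (nb p hp x hx).imp_left (h x.1 x.2)
    tauto
  have ho : ∀ x ∈ s, x ≠ (0, 0) → Ed s y (0, 0) x := fun x hx hne => by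
    rcases (hs x).1 hx with h | h
    · exact ed _ _ ⟨mem_lab0.2 (by simp), h, hne.symm, by simp [esG], by simp, by simp⟩
    · exact (h1 x h _ (m0 0 (by norm_num)) hne.symm).symm
  have nP := nbr (2, 0) (0, 0) (2, 4) (2, 1) (0, 2) (0, 1) (mem_lab0.2 (by simp))
    (fun i j H => by
      rcases mem_lab0.1 H.2.1 with ⟨rfl, hj : j < 3⟩ | ⟨rfl, hj : j < 6⟩ <;> interval_cases j <;>
        revert H <;> simp [adj0, esG, chG, chA])
  have nR := nbr (2, 4) (0, 0) (2, 0) (2, 3) (0, 2) (2, 5) (mem_lab0.2 (by simp))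
    (fun i j H => by
      rcases mem_lab0.1 H.2.1 with ⟨rfl, hj : j < 3⟩ | ⟨rfl, hj : j < 6⟩ <;> interval_cases j <;>
        revert H <;> simp [adj0, esG, chG, chA])
  have nQ := nbr (2, 1) (0, 0) (0, 1) (2, 0) (2, 2) (2, 3) (mem_lab0.2 (by simp))
    (fun i j H => by
      rcases mem_lab0.1 H.2.1 with ⟨rfl, hj : j < 3⟩ | ⟨rfl, hj : j < 6⟩ <;> interval_cases j <;>
        revert H <;> simp [adj0, esG, chG, chA])
  have nS := nbr (2, 3) (0, 0) (2, 5) (2, 4) (2, 2) (2, 1) (mem_lab0.2 (by simp))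
    (fun i j H => by
      rcases mem_lab0.1 H.2.1 with ⟨rfl, hj : j < 3⟩ | ⟨rfl, hj : j < 6⟩ <;> interval_cases j <;>
        revert H <;> simp [adj0, esG, chG, chA])
  have nh := nbr (0, 1) (0, 0) (0, 2) (2, 0) (2, 1) (2, 5) (mem_lab0.2 (by simp))
    (fun i j H => by
      rcases mem_lab0.1 H.2.1 with ⟨rfl, hj : j < 3⟩ | ⟨rfl, hj : j < 6⟩ <;> interval_cases j <;>
        revert H <;> simp [adj0, esG, chG, chA])
  have na := nbr (2, 2) (0, 0) (0, 2) (2, 1) (2, 3) (2, 3) (mem_lab0.2 (by simp))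
    (fun i j H => by
      rcases mem_lab0.1 H.2.1 with ⟨rfl, hj : j < 3⟩ | ⟨rfl, hj : j < 6⟩ <;> interval_cases j <;>
        revert H <;> simp [adj0, esG, chG, chA])
  have mO := m0 0 (by norm_num)
  have mh := m0 1 (by norm_num)
  have mg := m0 2 (by norm_num)
  have mP := m2 0 (by norm_num)
  have mQ := m2 1 (by norm_num)
  have ma := m2 2 (by norm_num)
  have mS := m2 3 (by norm_num)
  have mR := m2 4 (by norm_num)
  have mb := m2 5 (by norm_num)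
  have hB : B1 s A y (2, 2) (0, 0) (0, 2) (2, 1) (2, 3) :=
    b1_of hv hsp hr ma fun x hx => by have := na x hx; tauto
  have hT := t3_of hv (ho _ mP (by simp)) ho hF nP
  have hT' := t3_of hv (ho _ mR (by simp)) ho (by rwa [Set.pair_comm]) nR
  obtain ⟨q, c2, c3, g1, g2, g3, eA⟩ := lemmaL hv mO mh mg mP mQ ma mS (by simp) (by simp)
    (by simp) (by simp) (by simp) (by simp) (by simp) (by simp) (by simp) hT hB (t5_of hv mQ nQ)
  obtain ⟨q', c2', c3', g4, g5, g6, eB⟩ := lemmaL hv mO mb mg mR mS ma mQ (by simp) (by simp)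
    (by simp) (by simp) (by simp) (by simp) (by simp) (by simp) (by simp) hT' hB.swap
    (t5_of hv mS nS)
  have hXA : ∀ x ∈ A, X (y x) = 0 ∧ Z (y x) = 0 := fun x hx =>
    hX x ((hs x).2 (Or.inr hx)) (by rw [hA x hx]; norm_num)
  have xg := hX _ mg (by simp)
  rw [hd] at h04 h05
  obtain ⟨t, c5, k1, k2, k3, k4⟩ := core hv hsp hr mO mh mg mP mQ mS mR mb
    (ed _ _ (by simp [adj0, mem_lab0, chG])) (ed _ _ (by simp [adj0, mem_lab0, esG]))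
    (by simp) (by simp) (by simp) (by simp) (by simp) (by simp) (by simp) (by simp) (by simp)
    (by simp) hT hB (t5_of hv mQ nQ) (t5_of hv mh nh) nP g2 g3 g6 eA eB (hX _ mO (by simp)).1
    (hX _ mh (by simp)).1 xg.1 (fun x hx => (hXA x hx).1) (hX _ mO (by simp)).2
    (hX _ mh (by simp)).2 xg.2 (fun x hx => (hXA x hx).2) h04 h05
  have a1 := congrArg X eA
  have a2 := congrArg Z eA
  have b1 := congrArg X eB
  have b2 := congrArg Z eB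
  simp only [map_add, map_smul, smul_eq_mul, xg.1, xg.2] at a1 a2 b1 b2
  have e1 : q * d 0 1 = -(c2 * d 0 2) := by
    rw [hd, hd]; linear_combination Z (y (2, 0)) * a1 - X (y (2, 0)) * a2
  have e2 : c2' * d 2 4 = -(q' * d 3 4) := by
    rw [hd, hd]; linear_combination X (y (2, 4)) * b2 - Z (y (2, 4)) * b1
  have e3 : c5 * d 3 5 = -(t * d 1 5) := by
    rw [hd, hd]; linear_combination X (y (2, 5)) * k4 - Z (y (2, 5)) * k3
  refine mul_left_cancel₀ (mul_ne_zero (mul_ne_zero g1 g5.ne') k1) ?_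
  calc q * c2' * c5 * (d 0 1 * d 2 4 * d 3 5) = (q * d 0 1) * (c2' * d 2 4) * (c5 * d 3 5) := by
        ring
    _ = -(c2 * q' * t) * (d 0 2 * d 3 4 * d 1 5) := by rw [e1, e2, e3]; ring
    _ = _ := by rw [k2]; ring

end Pool.Agent.MP_26cd3b_lc.H84
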